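import Pool.Agent.TH421.Cat.Final

/-!
# The chain bijection for area and dinv on `m`-Dyck words

For all `m` and all `n ≥ 2` there are a subset `I` of the set `W` of `m`-Dyck words of length `n`
and a bijection `f` from `W \ T` onto `W \ I` lowering the area by one and raising dinv by one,
and moreover `C_T(q,t) = C_I(t,q)`.
-/

set_option autoImplicit false

namespace Pool.Agent.Results.MP_a77f20_co.ChainBijection

open MvPolynomial

/-- The `m`-Dyck words of length `n`: integer sequences `γ_0, …, γ_{n-1}` with `γ_0 = 0`,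
all `γ_i ≥ 0` and `γ_{i+1} ≤ γ_i + m`. -/
def W (m n : ℕ) : Set (Fin n → ℤ) :=
  {γ | (∀ i : Fin n, (i : ℕ) = 0 → γ i = 0) ∧ (∀ i : Fin n, 0 ≤ γ i) ∧
    ∀ i j : Fin n, (j : ℕ) = (i : ℕ) + 1 → γ j ≤ γ i + m}

/-- The words in `W m n` with `γ_1 = 0`. -/
def T (m n : ℕ) : Set (Fin n → ℤ) :=
  {γ | γ ∈ W m n ∧ ∀ i : Fin n, (i : ℕ) = 1 → γ i = 0}

/-- The function `sc_m`: it is `m + 1 - x` for `1 ≤ x ≤ m + 1`, `m + x` for `-m ≤ x ≤ 0`, and `0`
otherwise. -/
def sc (m : ℕ) (x : ℤ) : ℤ :=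
  if 1 ≤ x ∧ x ≤ (m : ℤ) + 1 then (m : ℤ) + 1 - x
  else if -(m : ℤ) ≤ x ∧ x ≤ 0 then (m : ℤ) + x
  else 0

/-- The area: the sum of the entries. -/
def area {n : ℕ} (γ : Fin n → ℤ) : ℤ := ∑ i, γ i

/-- The statistic `dinv_m`: the sum of `sc_m (γ_i - γ_j)` over all `i < j`. -/
def dinv (m : ℕ) {n : ℕ} (γ : Fin n → ℤ) : ℤ :=
  ∑ i, ∑ j, if i < j then sc m (γ i - γ j) else 0

/-- The polynomial `C_S(x,y)`, the sum over `w` in `S` of `x ^ area w * y ^ dinv w`. -/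
noncomputable def C (m : ℕ) {n : ℕ} (S : Set (Fin n → ℤ)) (x y : MvPolynomial (Fin 2) ℤ) :
    MvPolynomial (Fin 2) ℤ :=
  ∑ᶠ w ∈ S, x ^ (area w).toNat * y ^ (dinv m w).toNat

/-- For all `m` and all `n ≥ 2`: the set `W` of `m`-Dyck words of length `n` is finite, area and
dinv are nonnegative on it, and there are a subset `I` of `W` and a bijection `f` from `W \ T` onto
`W \ I` with `area (f w) = area w - 1` and `dinv (f w) = dinv w + 1` for all `w` in `W \ T`, and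
moreover `C_T(q,t) = C_I(t,q)`, where `q = X 0` and `t = X 1` are indeterminates over `ℤ`. -/
theorem result (m n : ℕ) (hn : 2 ≤ n) :
    (W m n).Finite ∧ (∀ w ∈ W m n, 0 ≤ area w ∧ 0 ≤ dinv m w) ∧
    ∃ (I : Set (Fin n → ℤ)) (f : (Fin n → ℤ) → (Fin n → ℤ)),
      I ⊆ W m n ∧ Set.BijOn f (W m n \ T m n) (W m n \ I) ∧
      (∀ w ∈ W m n \ T m n, area (f w) = area w - 1 ∧ dinv m (f w) = dinv m w + 1) ∧
      C m (T m n) (X 0) (X 1) = C m I (X 1) (X 0) :=
  Pool.Agent.TH421.Cat.main m n hn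

end Pool.Agent.Results.MP_a77f20_co.ChainBijection
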